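import Pool.Agent.H719R3.FO.Top
import Pool.Agent.H719R3.FO.CUB
import Pool.Agent.H719R3.FO.CUB1
import Pool.Agent.H719R3.FO.CUB2

/-!
# MP_249f74_an: only finitely many `n`-periodic phase points for tables bounded by nonsingular
algebraic curves

`Ω ⊂ ℂ` is a bounded strictly convex table whose boundary lies on the irreducible algebraic curve
`P(z, conj z) = 0`.  If this curve is nonsingular of degree at least `3` and transversal to the line
at infinity (generic curves of each degree `≥ 3`), then for every `n` the `n`-th iterate `T ^ n` of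
the billiard map has only finitely many fixed points in the phase space (the set of all periodic
points is countable).  The same holds for all (singular, nontransversal) curves with many parallel
tangents, or with many isotropic tangents and asymptotes.  (For conics the conclusion fails.)
-/

open scoped ComplexConjugate

namespace Pool.Agent.Results.MP_249f74_an.FinitelyManyPeriodicPoints

/-- The cross product of the plane vectors `w` and `v`. -/
noncomputable def cross (w v : ℂ) : ℝ := (conj w * v).im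

/-- The line through the boundary point `p` of the open set `Ω` with direction `u ≠ 0` is tangent:
it does not meet `Ω`. -/
def IsTangent (Ω : Set ℂ) (p u : ℂ) : Prop := u ≠ 0 ∧ ∀ y ∈ Ω, cross u (y - p) ≠ 0

/-- Strictly convex billiard tables with exactly one tangent line at each boundary point. -/
structure IsTable (Ω : Set ℂ) : Prop where
  isOpen : IsOpen Ω
  convex : Convex ℝ Ω
  bounded : Bornology.IsBounded Ω
  nonempty : Ω.Nonempty
  strict : StrictConvex ℝ (closure Ω)
  smooth : ∀ p ∈ frontier Ω, ∀ u v : ℂ, IsTangent Ω p u → IsTangent Ω p v → cross u v = 0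

/-- Closed billiard polygons with `n` vertices `x j`: successive vertices are different, and at each
vertex the directions of the two edges are mirror images in the tangent line. -/
structure IsPolygon (Ω : Set ℂ) (n : ℕ) (x : ℤ → ℂ) : Prop where
  per : ∀ j, x (j + n) = x j
  mem : ∀ j, x j ∈ frontier Ω
  ne : ∀ j, x (j + 1) ≠ x j
  law : ∀ j u, IsTangent Ω (x j) u →
    ((x j - x (j - 1)) * (x (j + 1) - x j) * conj u ^ 2).im = 0

/-- A billiard orbit with `T ^ n (q 0, v 0) = (q 0, v 0)`: the particle goes from `q j` with unit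
velocity `v j` to the boundary point `q (j + 1)`, where its velocity is reflected in the tangent line
(the mirror image of `v` in the line with direction `u` is `u ^ 2 * conj v / ‖u‖ ^ 2`). -/
structure IsOrbit (Ω : Set ℂ) (n : ℕ) (q v : ℤ → ℂ) : Prop where
  perq : ∀ j, q (j + n) = q j
  perv : ∀ j, v (j + n) = v j
  mem : ∀ j, q j ∈ frontier Ω
  unit : ∀ j, ‖v j‖ = 1
  step : ∀ j, ∃ t : ℝ, 0 < t ∧ q (j + 1) = q j + t * v j
  law : ∀ j u, IsTangent Ω (q (j + 1)) u → v (j + 1) * (‖u‖ : ℂ) ^ 2 = u ^ 2 * conj (v j)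

/-- The phase points fixed by the `n`-th iterate of the billiard map. -/
def Fixed (Ω : Set ℂ) (n : ℕ) : Set (ℂ × ℂ) :=
  {x | ∃ q v, IsOrbit Ω n q v ∧ x = (q 0, v 0)}

/-- The affine curve `P = 0` is nonsingular. -/
def Nonsingular (P : MvPolynomial (Fin 2) ℂ) : Prop := ∀ x : Fin 2 → ℂ,
  MvPolynomial.eval x P = 0 → MvPolynomial.eval x (MvPolynomial.pderiv 0 P) = 0 →
  MvPolynomial.eval x (MvPolynomial.pderiv 1 P) = 0 → False

/-- The curve meets the line at infinity transversally: its leading form has no multiple zero. -/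
def TransversalAtInfinity (P : MvPolynomial (Fin 2) ℂ) : Prop := ∀ x : Fin 2 → ℂ, x ≠ 0 →
  MvPolynomial.eval x (MvPolynomial.pderiv 0
    (MvPolynomial.homogeneousComponent P.totalDegree P)) = 0 →
  MvPolynomial.eval x (MvPolynomial.pderiv 1
    (MvPolynomial.homogeneousComponent P.totalDegree P)) = 0 → False

/-- The curve of degree `m ≥ 2` has more than `2 m` nonsingular points (real or complex) whose
tangents are parallel to the real direction `u`. -/
def ManyParallelTangents (P : MvPolynomial (Fin 2) ℂ) : Prop :=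
  2 ≤ P.totalDegree ∧
  ∃ (u : ℂ) (Z : Finset (Fin 2 → ℂ)), u ≠ 0 ∧ 2 * P.totalDegree < Z.card ∧ ∀ x ∈ Z,
    MvPolynomial.eval x P = 0 ∧
    MvPolynomial.eval x (MvPolynomial.pderiv 0 P) * u +
      MvPolynomial.eval x (MvPolynomial.pderiv 1 P) * conj u = 0 ∧
    (MvPolynomial.eval x (MvPolynomial.pderiv 0 P) ≠ 0 ∨
      MvPolynomial.eval x (MvPolynomial.pderiv 1 P) ≠ 0)

/-- The curve `Q = 0` has at the point `(a, b)` contact of order `r` with the line `X 0 = a`, and is
nonsingular there. -/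
def Contact (Q : MvPolynomial (Fin 2) ℂ) (a b : ℂ) (r : ℕ) : Prop :=
  ∃ U V : MvPolynomial (Fin 2) ℂ,
    Q = (MvPolynomial.X 0 - MvPolynomial.C a) * U +
      (MvPolynomial.X 1 - MvPolynomial.C b) ^ r * V ∧
    MvPolynomial.eval ![a, b] U ≠ 0 ∧ MvPolynomial.eval ![a, b] V ≠ 0

/-- `Q` is the equation of the curve `P = 0` in the coordinates `X 0, 1 / X 1`. -/
def Flipped (P Q : MvPolynomial (Fin 2) ℂ) : Prop :=
  ∃ (d : ℕ) (p : ℕ → Polynomial ℂ),
    P = ∑ n ∈ Finset.range (d + 1),
      Polynomial.aeval (MvPolynomial.X 0 : MvPolynomial (Fin 2) ℂ) (p n) *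
        MvPolynomial.X 1 ^ n ∧
    Q = ∑ n ∈ Finset.range (d + 1),
      Polynomial.aeval (MvPolynomial.X 0 : MvPolynomial (Fin 2) ℂ) (p n) *
        MvPolynomial.X 1 ^ (d - n)

/-- The curve has many isotropic tangents `z = a` (for `a` in `F`, with contact of order `r a ≥ 2`)
and isotropic asymptotes `z = a` (for `a` in `G`, with contact of order `r a ≥ 1` at infinity);
a tangent of order `r` counts `2 r`, an asymptote `2 r + 3`, and the sum is larger than `4 deg P`. -/
def ManyIsotropicTangents (P : MvPolynomial (Fin 2) ℂ) : Prop :=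
  ∃ (F G : Finset ℂ) (r : ℂ → ℕ), Disjoint F G ∧
    (∀ a ∈ F, 2 ≤ r a ∧ ∃ b : ℂ, Contact P a b (r a)) ∧
    (∀ a ∈ G, 1 ≤ r a ∧ ∃ Q : MvPolynomial (Fin 2) ℂ, Flipped P Q ∧ Contact Q a 0 (r a)) ∧
    4 * P.totalDegree < ∑ a ∈ F, 2 * r a + ∑ a ∈ G, (2 * r a + 3)

/-- Let the boundary of the strictly convex billiard table `Ω` lie on the irreducible algebraic curve
`P(z, conj z) = 0`, where `P` is nonsingular of degree at least `3` and transversal to the line at
infinity, or has many parallel tangents, or has many isotropic tangents and asymptotes.  Then for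
every `n` the table has only finitely many closed billiard polygons with `n` vertices. -/
theorem polygons (Ω : Set ℂ) (hΩ : IsTable Ω) (P : MvPolynomial (Fin 2) ℂ) (hP : Irreducible P)
    (h0 : ∀ z ∈ frontier Ω, MvPolynomial.eval ![z, conj z] P = 0)
    (h : (3 ≤ P.totalDegree ∧ Nonsingular P ∧ TransversalAtInfinity P) ∨
      ManyParallelTangents P ∨ ManyIsotropicTangents P) :
    ∀ n : ℕ, 0 < n → {x : ℤ → ℂ | IsPolygon Ω n x}.Finite := by
  have hT : Pool.Agent.H719R3.BG.Table Ω :=
    ⟨hΩ.isOpen, hΩ.convex, hΩ.bounded, hΩ.nonempty, hΩ.strict, hΩ.smooth⟩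
  have key : ∀ n : ℕ, 0 < n →
      {x : ℤ → ℂ | Pool.Agent.H719R3.BG.Polygon Ω n x}.Finite := by
    intro n hn
    rcases h with ⟨hd, hN, hI⟩ | ⟨h2, h⟩ | ⟨F, G, r, hFG, hF, hG, hs⟩
    · rcases eq_or_lt_of_le hd with h3 | h4
      · obtain ⟨F, G, r, hH⟩ := H719FO.CUB_proof H719FO.CUB1_proof H719FO.CUB2_proof P hP h3.symm
          hN hI
        exact H719FO.finite_polygons Ω hT P hP h0 F G r hH n hn
      · exact H450BH.finite_polygons Ω hT P hP (by omega) (Or.inr ⟨h4, hN, hI⟩) h0 n hn
    · exact H450BH.finite_polygons Ω hT P hP h2 (Or.inl h) h0 n hn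
    · refine H719FO.finite_polygons Ω hT P hP h0 F G r ⟨hFG, ?_, ?_, hs⟩ n hn
      · intro a ha
        obtain ⟨h1, b, U, V, e, hU, hV⟩ := hF a ha
        exact ⟨h1, b, U, V, e, hU, hV⟩
      · intro a ha
        obtain ⟨h1, Q, ⟨d, p, e1, e2⟩, U, V, e, hU, hV⟩ := hG a ha
        exact ⟨h1, d, Q, ⟨p, e1, e2⟩, U, V, e, hU, hV⟩
  intro n hn
  refine (key n hn).subset ?_
  intro x hx
  exact ⟨hx.per, hx.mem, hx.ne, hx.law⟩



/-- Orbits are polygons. -/
theorem polygon_of_orbit {Ω : Set ℂ} {n : ℕ} {q v : ℤ → ℂ} (h : IsOrbit Ω n q v) :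
    IsPolygon Ω n q := by
  refine ⟨h.perq, h.mem, ?_, ?_⟩
  · intro j e
    obtain ⟨t, ht, e1⟩ := h.step j
    rw [e] at e1
    have h1 : (t : ℂ) * v j = 0 := by linear_combination -e1
    rcases mul_eq_zero.1 h1 with h2 | h2
    · exact ht.ne' (by exact_mod_cast h2)
    · have := h.unit j
      rw [h2, norm_zero] at this
      exact zero_ne_one this
  · intro j u hu
    obtain ⟨t, ht, e1⟩ := h.step (j - 1)
    obtain ⟨s, hs, e2⟩ := h.step j
    rw [sub_add_cancel] at e1
    have h3 := h.law (j - 1) u (by rw [sub_add_cancel]; exact hu)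
    rw [sub_add_cancel] at h3
    have hu0 : (‖u‖ : ℂ) ≠ 0 := by
      exact_mod_cast (norm_pos_iff.2 hu.1).ne'
    have h4 : v j = u ^ 2 * conj (v (j - 1)) / (‖u‖ : ℂ) ^ 2 := by
      field_simp
      exact h3
    have h5 : (u : ℂ) * conj u = (‖u‖ : ℂ) ^ 2 := Complex.mul_conj' u
    have h6 : v (j - 1) * conj (v (j - 1)) = (‖v (j - 1)‖ : ℂ) ^ 2 := Complex.mul_conj' _
    have e3 : (q j - q (j - 1)) * (q (j + 1) - q j) * conj u ^ 2 =
        ((t * s * ‖v (j - 1)‖ ^ 2 * ‖u‖ ^ 2 : ℝ) : ℂ) := by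
      rw [show q (j + 1) - q j = s * v j by rw [e2]; ring,
        show q j - q (j - 1) = t * v (j - 1) by rw [e1]; ring, h4]
      push_cast
      rw [← h6]
      field_simp
      rw [show (‖u‖ : ℂ) ^ 4 = (u * conj u) ^ 2 by rw [h5]; ring]
      ring
    rw [e3, Complex.ofReal_im]

/-- An orbit is determined by its polygon. -/
theorem velocity {Ω : Set ℂ} {n : ℕ} {q v : ℤ → ℂ} (h : IsOrbit Ω n q v) :
    v 0 = (q 1 - q 0) / (‖q 1 - q 0‖ : ℂ) := by
  obtain ⟨t, ht, e⟩ := h.step 0
  rw [zero_add] at e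
  have h1 : q 1 - q 0 = t * v 0 := by rw [e]; ring
  rw [h1, norm_mul, h.unit 0, mul_one, Complex.norm_real, Real.norm_of_nonneg ht.le]
  have : (t : ℂ) ≠ 0 := by exact_mod_cast ht.ne'
  field_simp

/-- Let the boundary of the strictly convex billiard table `Ω` lie on the irreducible algebraic curve
`P(z, conj z) = 0`, where `P` is nonsingular of degree at least `3` and transversal to the line at
infinity, or has many parallel tangents, or has many isotropic tangents and asymptotes.  Then for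
every `n` the `n`-th iterate of the billiard map has only finitely many fixed points, and the set of
all periodic points is countable. -/
theorem result (Ω : Set ℂ) (hΩ : IsTable Ω) (P : MvPolynomial (Fin 2) ℂ) (hP : Irreducible P)
    (h0 : ∀ z ∈ frontier Ω, MvPolynomial.eval ![z, conj z] P = 0)
    (h : (3 ≤ P.totalDegree ∧ Nonsingular P ∧ TransversalAtInfinity P) ∨
      ManyParallelTangents P ∨ ManyIsotropicTangents P) :
    (∀ n : ℕ, 0 < n → (Fixed Ω n).Finite ∧ {x : ℤ → ℂ | IsPolygon Ω n x}.Finite) ∧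
      {x | ∃ n : ℕ, 0 < n ∧ x ∈ Fixed Ω n}.Countable := by
  have key : ∀ n : ℕ, 0 < n → (Fixed Ω n).Finite ∧ {x : ℤ → ℂ | IsPolygon Ω n x}.Finite := by
    intro n hn
    have h1 := polygons Ω hΩ P hP h0 h n hn
    refine ⟨?_, h1⟩
    refine (h1.image fun x => (x 0, (x 1 - x 0) / (‖x 1 - x 0‖ : ℂ))).subset ?_
    rintro _ ⟨q, v, hqv, rfl⟩
    exact ⟨q, polygon_of_orbit hqv, by rw [velocity hqv]⟩
  refine ⟨key, ?_⟩
  have h2 : {x | ∃ n : ℕ, 0 < n ∧ x ∈ Fixed Ω n} = ⋃ n ∈ {n : ℕ | 0 < n}, Fixed Ω n := by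
    ext x
    simp
  rw [h2]
  exact (Set.to_countable _).biUnion fun n hn => (key n hn).1.countable

end Pool.Agent.Results.MP_249f74_an.FinitelyManyPeriodicPoints
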